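import Pool.Agent.Helper25.SB.Uni
import Pool.Agent.Helper22.SB.F0

open Finset MeasureTheory
open scoped ENNReal Real

namespace Pool.Agent.Helper25.SB

open Pool.Agent.Helper60.SB

/-- the univariate fractional derivative of a smooth building block -/
theorem exists_uni (u : ℝ → ℝ) (hu : ContDiff ℝ (⊤ : ℕ∞) u)
    (hsupp : ∀ t, (t ≤ 1 / 10 ∨ 9 / 10 ≤ t) → u t = 0) (hint : ∫ t, u t = 0) (r a : ℝ)
    (hr : 0 < r) :
    ∃ (φ : ℕ → ℕ → ℝ → ℝ) (C : ℝ), 0 < C ∧ (∀ s c, Continuous (φ s c)) ∧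
      (∀ s c, c < 2 ^ s → ∀ x, ∫ y, bern r a (x - y) * φ s c y ∂tor1 = ub u s c x) ∧
      (∀ (s : ℕ) (t : ℝ), ∑ c ∈ range (2 ^ s), (φ s c t) ^ 2 ≤ C * ((2 : ℝ) ^ s) ^ (2 * r)) :=
  exists_uni_of Pool.Agent.Helper22.SB.bern_conv_exp Pool.Agent.Helper22.SB.bern_integrable
    u hu hsupp hint r a hr

end Pool.Agent.Helper25.SB
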