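import Pool.Agent.Helper60.SB.Defs2

open Finset MeasureTheory
open scoped ENNReal Real FourierTransform SchwartzMap

namespace Pool.Agent.Helper25.SB

open Pool.Agent.Helper60.SB

/-- the character `exp (-2 π i k c / Q)` -/
noncomputable def ec (Q : ℝ) (k : ℤ) (c : ℕ) : ℂ :=
  Complex.exp (-(2 * π * Complex.I * k * c / Q))

lemma norm_ec (Q : ℝ) (k : ℤ) (c : ℕ) : ‖ec Q k c‖ = 1 := by
  have h : -(2 * π * Complex.I * k * c / Q) = ((-(2 * π * k * c / Q) : ℝ) : ℂ) * Complex.I := by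
    push_cast
    ring
  rw [ec, h, Complex.norm_exp_ofReal_mul_I]

lemma norm_ei (k : ℤ) (t : ℝ) : ‖Complex.exp (Complex.I * k * t)‖ = 1 := by
  have h : Complex.I * k * t = ((k * t : ℝ) : ℂ) * Complex.I := by
    push_cast
    ring
  rw [h, Complex.norm_exp_ofReal_mul_I]

/-! ### the Fourier series of the periodised building block -/

theorem fourier_dil (f : ℝ → ℂ) (s c : ℕ) (n : ℤ) :
    𝓕 (fun t : ℝ => f (2 ^ s * t - c)) (n : ℝ) =
      (2 ^ s : ℂ)⁻¹ * 𝓕 f ((n : ℝ) / 2 ^ s) * ec (2 ^ s) n c := by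
  have h2 : (2 : ℝ) ^ s ≠ 0 := by positivity
  have h2' : (2 : ℂ) ^ s ≠ 0 := pow_ne_zero _ two_ne_zero
  rw [Real.fourier_real_eq_integral_exp_smul, Real.fourier_real_eq_integral_exp_smul]
  let G : ℝ → ℂ := fun w => Complex.exp (↑(-2 * π * ((w + c) / 2 ^ s) * n) * Complex.I) • f w
  have h3 : ∀ v : ℝ, Complex.exp (↑(-2 * π * v * n) * Complex.I) • f (2 ^ s * v - c) =
      (fun w => G (w - c)) (2 ^ s * v) := by
    intro v
    simp only [G]
    congr 3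
    push_cast
    field_simp
    ring
  simp_rw [h3]
  rw [Measure.integral_comp_mul_left (fun w => G (w - c)) (2 ^ s),
    integral_sub_right_eq_self G (c : ℝ)]
  have h4 : ∀ w : ℝ, G w = (Complex.exp (↑(-2 * π * w * (n / 2 ^ s)) * Complex.I) • f w) *
      ec (2 ^ s) n c := by
    intro w
    simp only [G, ec, smul_eq_mul]
    rw [mul_comm (Complex.exp _ * f w), ← mul_assoc, ← Complex.exp_add]
    congr 2
    push_cast
    field_simp
    ring
  simp_rw [h4]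
  rw [integral_mul_const, abs_of_pos (by positivity)]
  rw [Complex.real_smul]
  push_cast
  ring

theorem ub_eq_tsum (u : ℝ → ℝ) (hu : ContDiff ℝ (⊤ : ℕ∞) u)
    (hsupp : ∀ t, (t ≤ 1 / 10 ∨ 9 / 10 ≤ t) → u t = 0) {s c : ℕ} (hc : c < 2 ^ s) (x : ℝ) :
    (ub u s c x : ℂ) = ∑' k : ℤ, (2 ^ s : ℂ)⁻¹ * 𝓕 (fun t => (u t : ℂ)) ((k : ℝ) / 2 ^ s) *
      ec (2 ^ s) k c * Complex.exp (Complex.I * k * x) := by
  have hQ : (0 : ℝ) < 2 ^ s := by positivity
  have hcQ : (c : ℝ) + 1 ≤ 2 ^ s := by exact_mod_cast hc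
  -- the Schwartz function
  have hsm : ContDiff ℝ (⊤ : ℕ∞) (fun t : ℝ => (u (2 ^ s * t - c) : ℂ)) := by
    have h1 : ContDiff ℝ (⊤ : ℕ∞) (fun t : ℝ => u (2 ^ s * t - c)) :=
      hu.comp ((contDiff_const.mul contDiff_id).sub contDiff_const)
    exact Complex.ofRealCLM.contDiff.comp h1
  have hzero : ∀ t : ℝ, (t ≤ 0 ∨ 1 ≤ t) → u (2 ^ s * t - c) = 0 := by
    intro t ht
    apply hsupp
    rcases ht with ht | ht
    · left
      have h1 : (2 : ℝ) ^ s * t ≤ 0 := mul_nonpos_of_nonneg_of_nonpos hQ.le ht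
      have h2 : (0 : ℝ) ≤ c := Nat.cast_nonneg c
      linarith
    · right
      have h1 : (2 : ℝ) ^ s * 1 ≤ 2 ^ s * t := mul_le_mul_of_nonneg_left ht hQ.le
      linarith
  have hcs : HasCompactSupport (fun t : ℝ => (u (2 ^ s * t - c) : ℂ)) := by
    refine HasCompactSupport.intro (isCompact_Icc (a := (0 : ℝ)) (b := 1)) fun t ht => ?_
    rw [Set.mem_Icc, not_and_or, not_le, not_le] at ht
    rw [hzero t (ht.imp le_of_lt le_of_lt), Complex.ofReal_zero]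
  let f : 𝓢(ℝ, ℂ) := hcs.toSchwartzMap hsm
  have hf : ∀ t, f t = (u (2 ^ s * t - c) : ℂ) := fun t => rfl
  have h1 := SchwartzMap.tsum_eq_tsum_fourier f (Int.fract (x / (2 * π)))
  have h2 : ∑' n : ℤ, f (Int.fract (x / (2 * π)) + n) = (ub u s c x : ℂ) := by
    rw [tsum_eq_single 0]
    · rw [hf, ub]
      simp
    · intro n hn
      rw [hf, hzero, Complex.ofReal_zero]
      have h3 := Int.fract_nonneg (x / (2 * π))
      have h4 := Int.fract_lt_one (x / (2 * π))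
      rcases lt_or_gt_of_ne hn with h | h
      · left
        have : (n : ℝ) ≤ -1 := by exact_mod_cast Int.le_sub_one_of_lt h
        linarith
      · right
        have : (1 : ℝ) ≤ n := by exact_mod_cast h
        linarith
  rw [← h2, h1]
  refine tsum_congr fun k => ?_
  have h5 : (𝓕 f) (k : ℝ) = (2 ^ s : ℂ)⁻¹ * 𝓕 (fun t => (u t : ℂ)) ((k : ℝ) / 2 ^ s) *
      ec (2 ^ s) k c := fourier_dil (fun t => (u t : ℂ)) s c k
  rw [h5, fourier_coe_apply]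
  have h6 : Complex.exp (2 * π * Complex.I * k * (Int.fract (x / (2 * π)) : ℝ) / (1 : ℝ)) =
      Complex.exp (Complex.I * k * x) := by
    rw [Int.fract]
    have e : 2 * π * Complex.I * k * ((x / (2 * π) - ⌊x / (2 * π)⌋ : ℝ) : ℂ) / (1 : ℝ) =
        Complex.I * k * x + (-(k * ⌊x / (2 * π)⌋) : ℤ) * (2 * π * Complex.I) := by
      have hpi : (π : ℂ) ≠ 0 := by exact_mod_cast Real.pi_ne_zero
      push_cast
      field_simp
      ring
    rw [e, Complex.exp_add, Complex.exp_int_mul_two_pi_mul_I, mul_one]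
  rw [h6]

/-! ### decay of the coefficients -/

theorem fourier_decay (u : ℝ → ℝ) (hu : ContDiff ℝ (⊤ : ℕ∞) u)
    (hsupp : ∀ t, (t ≤ 1 / 10 ∨ 9 / 10 ≤ t) → u t = 0) (r : ℝ) (hr : 0 < r) :
    ∃ C : ℝ, 0 < C ∧ ∀ ξ : ℝ, ‖𝓕 (fun t => (u t : ℂ)) ξ‖ * |ξ| ^ r ≤ C / (1 + |ξ|) ^ 2 := by
  have hcs : HasCompactSupport (fun t : ℝ => (u t : ℂ)) := by
    refine HasCompactSupport.intro (isCompact_Icc (a := (0 : ℝ)) (b := 1)) fun t ht => ?_
    rw [Set.mem_Icc, not_and_or, not_le, not_le] at ht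
    rw [hsupp t (ht.imp (fun h => by linarith) (fun h => by linarith)), Complex.ofReal_zero]
  let U : 𝓢(ℝ, ℂ) := hcs.toSchwartzMap (Complex.ofRealCLM.contDiff.comp hu)
  let N : ℕ := ⌈r⌉₊
  let m : ℕ × ℕ := (N + 2, 0)
  have h1 := fun ξ : ℝ => SchwartzMap.one_add_le_sup_seminorm_apply (𝕜 := ℝ) (m := m)
    (k := N + 2) (n := 0) le_rfl le_rfl (𝓕 U) ξ
  set B : ℝ := 2 ^ m.1 * (Finset.Iic m).sup (fun m => SchwartzMap.seminorm ℝ m.1 m.2) (𝓕 U)
    with hB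
  refine ⟨max B 1, lt_max_of_lt_right one_pos, fun ξ => ?_⟩
  have h2 := h1 ξ
  rw [norm_iteratedFDeriv_zero] at h2
  have h3 : (𝓕 U) ξ = 𝓕 (fun t => (u t : ℂ)) ξ := rfl
  rw [h3, Real.norm_eq_abs] at h2
  have h4 : (0 : ℝ) < 1 + |ξ| := by positivity
  have h5 : |ξ| ^ r ≤ (1 + |ξ|) ^ N := by
    calc |ξ| ^ r ≤ (1 + |ξ|) ^ r :=
          Real.rpow_le_rpow (abs_nonneg _) (by linarith) hr.le
      _ ≤ (1 + |ξ|) ^ (N : ℝ) :=
          Real.rpow_le_rpow_of_exponent_le (by linarith [abs_nonneg ξ]) (Nat.le_ceil r)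
      _ = (1 + |ξ|) ^ N := Real.rpow_natCast _ _
  rw [le_div_iff₀ (by positivity)]
  calc ‖𝓕 (fun t => (u t : ℂ)) ξ‖ * |ξ| ^ r * (1 + |ξ|) ^ 2 ≤
        ‖𝓕 (fun t => (u t : ℂ)) ξ‖ * (1 + |ξ|) ^ N * (1 + |ξ|) ^ 2 := by gcongr
    _ = (1 + |ξ|) ^ (N + 2) * ‖𝓕 (fun t => (u t : ℂ)) ξ‖ := by ring
    _ ≤ B := h2
    _ ≤ max B 1 := le_max_left _ _

/-- the coefficients of the fractional derivative -/
noncomputable def cf (u : ℝ → ℝ) (r a : ℝ) (s : ℕ) (k : ℤ) : ℂ :=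
  (2 ^ s : ℂ)⁻¹ * 𝓕 (fun t => (u t : ℂ)) ((k : ℝ) / 2 ^ s) / bmul r a k

lemma norm_bmul (r a : ℝ) {k : ℤ} (hk : k ≠ 0) : ‖bmul r a k‖ = |(k : ℝ)| ^ (-r) := by
  rw [bmul, if_neg hk, norm_mul, Complex.norm_real, Real.norm_eq_abs,
    abs_of_nonneg (Real.rpow_nonneg (abs_nonneg _) _)]
  have h : ∀ σ : ℤ, -(Complex.I * σ * (a * π / 2)) =
      ((-(σ * (a * π / 2)) : ℝ) : ℂ) * Complex.I := by
    intro σ
    push_cast
    ring
  rw [h, Complex.norm_exp_ofReal_mul_I, mul_one]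

lemma bmul_ne (r a : ℝ) (k : ℤ) : bmul r a k ≠ 0 := by
  by_cases hk : k = 0
  · rw [bmul, if_pos hk]; exact one_ne_zero
  · have h := norm_bmul r a hk
    intro h0
    rw [h0, norm_zero] at h
    have h1 : (0 : ℝ) < |(k : ℝ)| := abs_pos.mpr (by exact_mod_cast hk)
    exact absurd h (Real.rpow_pos_of_pos h1 _).ne

lemma fourier_zero (u : ℝ → ℝ) (hint : ∫ t, u t = 0) :
    𝓕 (fun t => (u t : ℂ)) (0 : ℝ) = 0 := by
  rw [Real.fourier_real_eq_integral_exp_smul]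
  simp only [mul_zero, Complex.ofReal_zero, zero_mul, Complex.exp_zero, one_smul]
  rw [integral_complex_ofReal, hint, Complex.ofReal_zero]

lemma cf_zero (u : ℝ → ℝ) (hint : ∫ t, u t = 0) (r a : ℝ) (s : ℕ) : cf u r a s 0 = 0 := by
  rw [cf, Int.cast_zero, zero_div, fourier_zero u hint, mul_zero, zero_div]

theorem norm_cf_le (u : ℝ → ℝ) (hint : ∫ t, u t = 0) {r : ℝ} (a : ℝ) {C : ℝ}
    (hC0 : 0 < C)
    (hC : ∀ ξ : ℝ, ‖𝓕 (fun t => (u t : ℂ)) ξ‖ * |ξ| ^ r ≤ C / (1 + |ξ|) ^ 2) (s : ℕ) (k : ℤ) :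
    ‖cf u r a s k‖ ≤ C * ((2 : ℝ) ^ s) ^ r / 2 ^ s / (1 + |(k : ℝ)| / 2 ^ s) ^ 2 := by
  have hQ : (0 : ℝ) < 2 ^ s := by positivity
  by_cases hk : k = 0
  · rw [hk, cf_zero u hint, norm_zero]
    positivity
  · have hk' : (0 : ℝ) < |(k : ℝ)| := abs_pos.mpr (by exact_mod_cast hk)
    have h1 := hC ((k : ℝ) / 2 ^ s)
    rw [abs_div, abs_of_pos hQ, Real.div_rpow hk'.le hQ.le] at h1
    have h2 : (0 : ℝ) < (2 ^ s : ℝ) ^ r := Real.rpow_pos_of_pos hQ _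
    have h3 : (0 : ℝ) < |(k : ℝ)| ^ r := Real.rpow_pos_of_pos hk' _
    rw [cf, norm_div, norm_mul, norm_bmul r a hk, norm_inv, norm_pow, Complex.norm_ofNat,
      Real.rpow_neg hk'.le]
    have h4 : ((2 : ℝ) ^ s)⁻¹ * ‖𝓕 (fun t => (u t : ℂ)) ((k : ℝ) / 2 ^ s)‖ / (|(k : ℝ)| ^ r)⁻¹ =
        (2 ^ s : ℝ) ^ r / 2 ^ s * (‖𝓕 (fun t => (u t : ℂ)) ((k : ℝ) / 2 ^ s)‖ *
          (|(k : ℝ)| ^ r / (2 ^ s : ℝ) ^ r)) := by
      field_simp
    rw [h4]
    calc (2 ^ s : ℝ) ^ r / 2 ^ s * (‖𝓕 (fun t => (u t : ℂ)) ((k : ℝ) / 2 ^ s)‖ *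
          (|(k : ℝ)| ^ r / (2 ^ s : ℝ) ^ r)) ≤
        (2 ^ s : ℝ) ^ r / 2 ^ s * (C / (1 + |(k : ℝ)| / 2 ^ s) ^ 2) := by
          gcongr
      _ = _ := by ring

/-! ### finite Parseval -/

lemma ec_mul_conj (Q : ℕ) (k l : ℤ) (c : ℕ) :
    ec Q k c * (starRingEnd ℂ) (ec Q l c) = Complex.exp (-(2 * π * Complex.I * (k - l) / Q)) ^ c := by
  rw [ec, ec, ← Complex.exp_conj, ← Complex.exp_add, ← Complex.exp_nat_mul]
  congr 1
  simp only [map_neg, map_div₀, map_mul, Complex.conj_ofReal, Complex.conj_I, map_natCast,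
    map_intCast, map_ofNat]
  push_cast
  ring

lemma sum_ec (Q : ℕ) (hQ : 0 < Q) (k l : ℤ) :
    ‖∑ c ∈ range Q, ec Q k c * (starRingEnd ℂ) (ec Q l c)‖ =
      if (Q : ℤ) ∣ k - l then (Q : ℝ) else 0 := by
  simp_rw [ec_mul_conj]
  set ζ : ℂ := Complex.exp (-(2 * π * Complex.I * (k - l) / Q)) with hζ
  have hQ' : (Q : ℂ) ≠ 0 := by exact_mod_cast hQ.ne'
  have h1 : ζ ^ Q = 1 := by
    rw [hζ, ← Complex.exp_nat_mul]
    have e : (Q : ℂ) * -(2 * π * Complex.I * (k - l) / Q) = (-(k - l) : ℤ) * (2 * π * Complex.I) := by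
      push_cast
      field_simp
    rw [e, Complex.exp_int_mul_two_pi_mul_I]
  split_ifs with h
  · obtain ⟨n, hn⟩ := h
    have h2 : ζ = 1 := by
      rw [hζ]
      have e : -(2 * π * Complex.I * (k - l) / Q) = (-n : ℤ) * (2 * π * Complex.I) := by
        have : (k : ℂ) - l = Q * n := by exact_mod_cast hn
        rw [this]
        push_cast
        field_simp
      rw [e, Complex.exp_int_mul_two_pi_mul_I]
    simp [h2]
  · have h2 : ζ ≠ 1 := by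
      intro h3
      rw [hζ, Complex.exp_eq_one_iff] at h3
      obtain ⟨n, hn⟩ := h3
      apply h
      refine ⟨-n, ?_⟩
      have hpi : (π : ℂ) ≠ 0 := by exact_mod_cast Real.pi_ne_zero
      have h4 : (k : ℂ) - l = Q * -n := by
        field_simp at hn
        have h5 : (2 * π * Complex.I) * ((k : ℂ) - l) = (2 * π * Complex.I) * (Q * -n) := by
          linear_combination -(2 * π * Complex.I) * hn
        exact mul_left_cancel₀ Complex.two_pi_I_ne_zero h5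
      exact_mod_cast h4
    have h3 := mul_geom_sum ζ Q
    rw [h1, sub_self] at h3
    rw [(mul_eq_zero.mp h3).resolve_left (sub_ne_zero.mpr h2), norm_zero]

theorem parseval_le (Q : ℕ) (hQ : 0 < Q) (K : Finset ℤ) (b : ℤ → ℂ) :
    ∑ c ∈ range Q, ‖∑ k ∈ K, b k * ec Q k c‖ ^ 2 ≤
      Q * ∑ k ∈ K, ‖b k‖ * ∑ l ∈ K.filter (fun l => (Q : ℤ) ∣ k - l), ‖b l‖ := by
  have h1 : ((∑ c ∈ range Q, ‖∑ k ∈ K, b k * ec Q k c‖ ^ 2 : ℝ) : ℂ) =
      ∑ k ∈ K, ∑ l ∈ K, b k * (starRingEnd ℂ) (b l) *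
        ∑ c ∈ range Q, ec Q k c * (starRingEnd ℂ) (ec Q l c) := by
    push_cast
    have h2 : ∀ c, ((‖∑ k ∈ K, b k * ec Q k c‖ : ℝ) : ℂ) ^ 2 = ∑ k ∈ K, ∑ l ∈ K,
        b k * (starRingEnd ℂ) (b l) * (ec Q k c * (starRingEnd ℂ) (ec Q l c)) := by
      intro c
      rw [← Complex.mul_conj', map_sum, Finset.sum_mul_sum]
      refine Finset.sum_congr rfl fun k _ => Finset.sum_congr rfl fun l _ => ?_
      rw [map_mul]
      ring
    simp_rw [h2]
    rw [Finset.sum_comm]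
    refine Finset.sum_congr rfl fun k _ => ?_
    rw [Finset.sum_comm]
    exact Finset.sum_congr rfl fun l _ => by rw [Finset.mul_sum]
  have h3 : (0 : ℝ) ≤ ∑ c ∈ range Q, ‖∑ k ∈ K, b k * ec Q k c‖ ^ 2 :=
    Finset.sum_nonneg fun _ _ => by positivity
  rw [← abs_of_nonneg h3, ← Real.norm_eq_abs, ← Complex.norm_real, h1]
  refine (norm_sum_le _ _).trans ?_
  rw [Finset.mul_sum]
  refine Finset.sum_le_sum fun k _ => ?_
  refine (norm_sum_le _ _).trans ?_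
  rw [Finset.mul_sum, Finset.mul_sum, Finset.sum_filter]
  refine Finset.sum_le_sum fun l _ => ?_
  rw [norm_mul, norm_mul, sum_ec Q hQ, RCLike.norm_conj]
  split_ifs
  · exact le_of_eq (by ring)
  · simp

/-- the constant in the bound for the sum over a residue class -/
noncomputable def S0 : ℝ := ∑' n : ℤ, 2 / (1 + (n : ℝ) ^ 2)

lemma summable_S0 : Summable fun n : ℤ => 2 / (1 + (n : ℝ) ^ 2) := by
  have h1 : Summable fun n : ℤ => |(n : ℝ)| ^ (-2 : ℝ) := Real.summable_abs_int_rpow one_lt_two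
  have h2 : Summable fun n : ℤ => if n = 0 then (2 : ℝ) else 0 :=
    (hasSum_ite_eq (0 : ℤ) (2 : ℝ)).summable
  refine Summable.of_nonneg_of_le (fun n => by positivity) (fun n => ?_) (h2.add (h1.mul_left 2))
  by_cases hn : n = 0
  · subst hn
    simp only [Int.cast_zero, if_true]
    have : (0 : ℝ) ≤ 2 * |(0 : ℝ)| ^ (-2 : ℝ) := by positivity
    norm_num at this ⊢
  · have h3 : (0 : ℝ) < |(n : ℝ)| := abs_pos.mpr (by exact_mod_cast hn)
    rw [if_neg hn, zero_add, Real.rpow_neg h3.le, Real.rpow_two, sq_abs, ← div_eq_mul_inv]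
    have h4 : (0 : ℝ) < (n : ℝ) ^ 2 := by rw [← sq_abs]; positivity
    exact div_le_div_of_nonneg_left (by norm_num) h4 (by linarith)

lemma S0_nonneg : 0 ≤ S0 := tsum_nonneg fun n => by positivity

lemma weight_le {Q : ℕ} (hQ : 0 < Q) (l : ℤ) :
    1 / (1 + |(l : ℝ)| / Q) ^ 2 ≤ 2 / (1 + ((l / (Q : ℤ) : ℤ) : ℝ) ^ 2) := by
  have hQ' : (0 : ℝ) < Q := by exact_mod_cast hQ
  set n : ℤ := l / (Q : ℤ) with hn
  have h1 : (Q : ℤ) * n ≤ l := by
    have := Int.emod_add_mul_ediv l Q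
    have h2 := Int.emod_nonneg l (b := (Q : ℤ)) (by exact_mod_cast hQ.ne')
    rw [← hn] at this
    linarith
  have h2 : l < (Q : ℤ) * n + Q := by
    have := Int.emod_add_mul_ediv l Q
    have h2 := Int.emod_lt_of_pos l (b := (Q : ℤ)) (by exact_mod_cast hQ)
    rw [← hn] at this
    linarith
  have h1' : (Q : ℝ) * n ≤ l := by exact_mod_cast h1
  have h2' : (l : ℝ) < Q * n + Q := by exact_mod_cast h2
  have h3 : |(n : ℝ)| ≤ 1 + |(l : ℝ)| / Q := by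
    rw [abs_le]
    constructor
    · have h4 : -(|(l : ℝ)| / Q) ≤ (l : ℝ) / Q := by
        rw [← neg_div]
        exact div_le_div_of_nonneg_right (neg_abs_le _) hQ'.le
      have h5 : (l : ℝ) / Q < n + 1 := by
        rw [div_lt_iff₀ hQ']
        linarith
      linarith
    · have h4 : (l : ℝ) / Q ≤ |(l : ℝ)| / Q := div_le_div_of_nonneg_right (le_abs_self _) hQ'.le
      have h5 : (n : ℝ) ≤ (l : ℝ) / Q := by
        rw [le_div_iff₀ hQ']
        linarith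
      linarith
  have h4 : (n : ℝ) ^ 2 ≤ (1 + |(l : ℝ)| / Q) ^ 2 := by
    rw [← sq_abs]
    exact pow_le_pow_left₀ (abs_nonneg _) h3 2
  have h5 : (1 : ℝ) ≤ (1 + |(l : ℝ)| / Q) ^ 2 := by
    have : (0 : ℝ) ≤ |(l : ℝ)| / Q := by positivity
    nlinarith
  rw [div_le_div_iff₀ (by positivity) (by positivity)]
  linarith

theorem sum_class_le {Q : ℕ} (hQ : 0 < Q) {M : ℝ} (hM : 0 ≤ M) {b : ℤ → ℂ}
    (hb : ∀ k, ‖b k‖ ≤ M / (1 + |(k : ℝ)| / Q) ^ 2) (K : Finset ℤ) (k : ℤ) :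
    ∑ l ∈ K.filter (fun l => (Q : ℤ) ∣ k - l), ‖b l‖ ≤ M * S0 := by
  have hQz : (Q : ℤ) ≠ 0 := by exact_mod_cast hQ.ne'
  have h1 : ∀ l : ℤ, ‖b l‖ ≤ M * (2 / (1 + ((l / (Q : ℤ) : ℤ) : ℝ) ^ 2)) := by
    intro l
    refine (hb l).trans ?_
    rw [div_eq_mul_one_div]
    exact mul_le_mul_of_nonneg_left (weight_le hQ l) hM
  refine (Finset.sum_le_sum fun l _ => h1 l).trans ?_
  rw [← Finset.mul_sum]
  refine mul_le_mul_of_nonneg_left ?_ hM
  have hinj : Set.InjOn (fun l : ℤ => l / (Q : ℤ))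
      (K.filter (fun l => (Q : ℤ) ∣ k - l) : Finset ℤ) := by
    intro l hl l' hl' h
    rw [Finset.mem_coe, Finset.mem_filter] at hl hl'
    change l / (Q : ℤ) = l' / (Q : ℤ) at h
    have h2 : (Q : ℤ) ∣ l - l' := by
      have := dvd_sub hl'.2 hl.2
      have e : k - l' - (k - l) = l - l' := by ring
      rwa [e] at this
    have h4 : l % (Q : ℤ) = l' % (Q : ℤ) :=
      Int.emod_eq_emod_iff_emod_sub_eq_zero.mpr (Int.emod_eq_zero_of_dvd h2)
    have h5 := Int.emod_add_mul_ediv l Q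
    have h6 := Int.emod_add_mul_ediv l' Q
    rw [← h5, ← h6, h4, h]
  rw [← Finset.sum_image (f := fun n : ℤ => 2 / (1 + (n : ℝ) ^ 2))
    (g := fun l : ℤ => l / (Q : ℤ)) hinj]
  exact summable_S0.sum_le_tsum _ fun n _ => by positivity

theorem sum_all_le {Q : ℕ} (hQ : 0 < Q) {M : ℝ} (hM : 0 ≤ M) {b : ℤ → ℂ}
    (hb : ∀ k, ‖b k‖ ≤ M / (1 + |(k : ℝ)| / Q) ^ 2) (K : Finset ℤ) :
    ∑ l ∈ K, ‖b l‖ ≤ Q * (M * S0) := by
  have h1 : ∀ l : ℤ, ‖b l‖ ≤ ∑ j ∈ range Q, if (Q : ℤ) ∣ (j : ℤ) - l then ‖b l‖ else 0 := by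
    intro l
    have hQz : (Q : ℤ) ≠ 0 := by exact_mod_cast hQ.ne'
    have h2 := Int.emod_nonneg l hQz
    have h3 := Int.emod_lt_of_pos l (b := (Q : ℤ)) (by exact_mod_cast hQ)
    have h4 : (l % (Q : ℤ)).toNat ∈ range Q := by
      rw [Finset.mem_range]
      omega
    have h5 : (Q : ℤ) ∣ (((l % (Q : ℤ)).toNat : ℕ) : ℤ) - l := by
      rw [Int.toNat_of_nonneg h2]
      refine ⟨-(l / Q), ?_⟩
      have := Int.emod_add_mul_ediv l Q
      linarith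
    refine le_trans ?_ (Finset.single_le_sum
      (f := fun j : ℕ => if (Q : ℤ) ∣ (j : ℤ) - l then ‖b l‖ else 0) (fun j _ => ?_) h4)
    · rw [if_pos h5]
    · split_ifs
      · exact norm_nonneg _
      · exact le_rfl
  refine (Finset.sum_le_sum fun l _ => h1 l).trans ?_
  rw [Finset.sum_comm]
  have h2 : ∀ j ∈ range Q, ∑ l ∈ K, (if (Q : ℤ) ∣ (j : ℤ) - l then ‖b l‖ else 0) ≤ M * S0 := by
    intro j _
    rw [← Finset.sum_filter]
    exact sum_class_le hQ hM hb K j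
  refine (Finset.sum_le_sum h2).trans ?_
  rw [Finset.sum_const, Finset.card_range, nsmul_eq_mul]

theorem summable_of_bd {Q : ℕ} (hQ : 0 < Q) {M : ℝ} (hM : 0 ≤ M) {b : ℤ → ℂ}
    (hb : ∀ k, ‖b k‖ ≤ M / (1 + |(k : ℝ)| / Q) ^ 2) : Summable fun k => ‖b k‖ :=
  summable_of_sum_le (fun _ => norm_nonneg _) (sum_all_le hQ hM hb)

theorem square_fun {Q : ℕ} (hQ : 0 < Q) {M : ℝ} (hM : 0 ≤ M) {b : ℤ → ℂ}
    (hb : ∀ k, ‖b k‖ ≤ M / (1 + |(k : ℝ)| / Q) ^ 2) :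
    ∑ c ∈ range Q, ‖∑' k, b k * ec Q k c‖ ^ 2 ≤ (Q * (M * S0)) ^ 2 := by
  have hs : ∀ c, Summable fun k => b k * ec Q k c := fun c => by
    refine Summable.of_norm ?_
    simp_rw [norm_mul, norm_ec, mul_one]
    exact summable_of_bd hQ hM hb
  have h1 : Filter.Tendsto (fun K : Finset ℤ => ∑ c ∈ range Q, ‖∑ k ∈ K, b k * ec Q k c‖ ^ 2)
      Filter.atTop (nhds (∑ c ∈ range Q, ‖∑' k, b k * ec Q k c‖ ^ 2)) :=
    tendsto_finsetSum _ fun c _ => ((hs c).hasSum.norm).pow 2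
  refine le_of_tendsto' h1 fun K => ?_
  refine (parseval_le Q hQ K b).trans ?_
  have h2 : ∑ k ∈ K, ‖b k‖ * ∑ l ∈ K.filter (fun l => (Q : ℤ) ∣ k - l), ‖b l‖ ≤
      (Q * (M * S0)) * (M * S0) := by
    calc ∑ k ∈ K, ‖b k‖ * ∑ l ∈ K.filter (fun l => (Q : ℤ) ∣ k - l), ‖b l‖ ≤
        ∑ k ∈ K, ‖b k‖ * (M * S0) := Finset.sum_le_sum fun k _ =>
          mul_le_mul_of_nonneg_left (sum_class_le hQ hM hb K k) (norm_nonneg _)
      _ = (∑ k ∈ K, ‖b k‖) * (M * S0) := by rw [Finset.sum_mul]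
      _ ≤ _ := mul_le_mul_of_nonneg_right (sum_all_le hQ hM hb K)
          (mul_nonneg hM S0_nonneg)
  calc (Q : ℝ) * ∑ k ∈ K, ‖b k‖ * ∑ l ∈ K.filter (fun l => (Q : ℤ) ∣ k - l), ‖b l‖ ≤
      Q * ((Q * (M * S0)) * (M * S0)) := mul_le_mul_of_nonneg_left h2 (Nat.cast_nonneg _)
    _ = (Q * (M * S0)) ^ 2 := by ring

/-! ### the main theorem -/

/-- the complex fractional derivative -/
noncomputable def Phi (u : ℝ → ℝ) (r a : ℝ) (s c : ℕ) (t : ℝ) : ℂ :=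
  ∑' k : ℤ, cf u r a s k * Complex.exp (Complex.I * k * t) * ec (2 ^ s : ℕ) k c

theorem exists_uni_of (hconv : ∀ (r a : ℝ), 0 < r → ∀ (x : ℝ) (k : ℤ),
      ∫ y, (bern r a (x - y) : ℂ) * Complex.exp (Complex.I * k * y) ∂tor1 =
        bmul r a k * Complex.exp (Complex.I * k * x))
    (hbint : ∀ (r a : ℝ), 0 < r → ∀ x : ℝ, Integrable (fun y => bern r a (x - y)) tor1)
    (u : ℝ → ℝ) (hu : ContDiff ℝ (⊤ : ℕ∞) u)
    (hsupp : ∀ t, (t ≤ 1 / 10 ∨ 9 / 10 ≤ t) → u t = 0) (hint : ∫ t, u t = 0) (r a : ℝ)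
    (hr : 0 < r) :
    ∃ (φ : ℕ → ℕ → ℝ → ℝ) (C : ℝ), 0 < C ∧ (∀ s c, Continuous (φ s c)) ∧
      (∀ s c, c < 2 ^ s → ∀ x, ∫ y, bern r a (x - y) * φ s c y ∂tor1 = ub u s c x) ∧
      (∀ (s : ℕ) (t : ℝ), ∑ c ∈ range (2 ^ s), (φ s c t) ^ 2 ≤ C * ((2 : ℝ) ^ s) ^ (2 * r)) := by
  obtain ⟨C, hC0, hC⟩ := fourier_decay u hu hsupp r hr
  have hQ : ∀ s : ℕ, (0 : ℝ) < 2 ^ s := fun s => by positivity
  have hM : ∀ s : ℕ, 0 ≤ C * ((2 : ℝ) ^ s) ^ r / 2 ^ s := fun s => by positivity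
  have hb : ∀ (s : ℕ) (t : ℝ) (k : ℤ), ‖cf u r a s k * Complex.exp (Complex.I * k * t)‖ ≤
      C * ((2 : ℝ) ^ s) ^ r / 2 ^ s / (1 + |(k : ℝ)| / (2 ^ s : ℕ)) ^ 2 := by
    intro s t k
    rw [norm_mul, norm_ei, mul_one]
    have := norm_cf_le u hint a hC0 hC s k
    push_cast
    exact this
  have hsum : ∀ s : ℕ, Summable fun k => ‖cf u r a s k‖ := by
    intro s
    refine summable_of_bd (Q := 2 ^ s) (by positivity) (hM s) fun k => ?_
    have := norm_cf_le u hint a hC0 hC s k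
    push_cast
    exact this
  have hterm : ∀ (s c : ℕ) (t : ℝ) (k : ℤ), ‖cf u r a s k * Complex.exp (Complex.I * k * t) *
      ec (2 ^ s : ℕ) k c‖ = ‖cf u r a s k‖ := by
    intro s c t k
    rw [norm_mul, norm_mul, norm_ei, norm_ec, mul_one, mul_one]
  have hcont : ∀ s c, Continuous (Phi u r a s c) := by
    intro s c
    refine continuous_tsum (fun k => ?_) (hsum s) fun k t => (hterm s c t k).le
    fun_prop
  refine ⟨fun s c t => (Phi u r a s c t).re, (C * S0) ^ 2 + 1, by positivity,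
    fun s c => Complex.continuous_re.comp (hcont s c), ?_, ?_⟩
  · intro s c hc x
    have h1 : HasSum (fun k : ℤ => ∫ y, (bern r a (x - y) : ℂ) *
        (cf u r a s k * Complex.exp (Complex.I * k * y) * ec (2 ^ s : ℕ) k c) ∂tor1)
        (∫ y, ∑' k : ℤ, (bern r a (x - y) : ℂ) *
          (cf u r a s k * Complex.exp (Complex.I * k * y) * ec (2 ^ s : ℕ) k c) ∂tor1) := by
      refine hasSum_integral_of_summable_integral_norm (fun k => ?_) ?_
      · have h2 := (hbint r a hr x).ofReal (𝕜 := ℂ)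
        refine h2.mul_bdd (c := ‖cf u r a s k‖) ?_ ?_
        · exact (Continuous.aestronglyMeasurable (by fun_prop))
        · exact Filter.Eventually.of_forall fun y => (hterm s c y k).le
      · have h2 : ∀ k : ℤ, ∫ y, ‖(bern r a (x - y) : ℂ) *
            (cf u r a s k * Complex.exp (Complex.I * k * y) * ec (2 ^ s : ℕ) k c)‖ ∂tor1 =
            (∫ y, ‖bern r a (x - y)‖ ∂tor1) * ‖cf u r a s k‖ := by
          intro k
          rw [← integral_mul_const]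
          refine integral_congr_ae (Filter.Eventually.of_forall fun y => ?_)
          simp only
          rw [norm_mul, hterm, Complex.norm_real]
        simp_rw [h2]
        exact (hsum s).mul_left _
    have h3 : ∀ k : ℤ, ∫ y, (bern r a (x - y) : ℂ) *
        (cf u r a s k * Complex.exp (Complex.I * k * y) * ec (2 ^ s : ℕ) k c) ∂tor1 =
        (2 ^ s : ℂ)⁻¹ * 𝓕 (fun t => (u t : ℂ)) ((k : ℝ) / 2 ^ s) * ec (2 ^ s) k c *
          Complex.exp (Complex.I * k * x) := by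
      intro k
      have h4 : ∀ y : ℝ, (bern r a (x - y) : ℂ) *
          (cf u r a s k * Complex.exp (Complex.I * k * y) * ec (2 ^ s : ℕ) k c) =
          (bern r a (x - y) : ℂ) * Complex.exp (Complex.I * k * y) *
            (cf u r a s k * ec (2 ^ s : ℕ) k c) := fun y => by ring
      simp_rw [h4]
      rw [integral_mul_const, hconv r a hr x k, cf]
      have h5 := bmul_ne r a k
      push_cast
      field_simp
    simp_rw [h3] at h1
    have h6 : ∀ y : ℝ, ∑' k : ℤ, (bern r a (x - y) : ℂ) *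
        (cf u r a s k * Complex.exp (Complex.I * k * y) * ec (2 ^ s : ℕ) k c) =
        (bern r a (x - y) : ℂ) * Phi u r a s c y := fun y => by
      rw [tsum_mul_left, Phi]
    simp_rw [h6] at h1
    have h7 := h1.tsum_eq
    rw [← ub_eq_tsum u hu hsupp hc x] at h7
    have h8 : Integrable (fun y => (bern r a (x - y) : ℂ) * Phi u r a s c y) tor1 := by
      refine ((hbint r a hr x).ofReal (𝕜 := ℂ)).mul_bdd (c := ∑' k, ‖cf u r a s k‖)
        (hcont s c).aestronglyMeasurable (Filter.Eventually.of_forall fun y => ?_)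
      refine (norm_tsum_le_tsum_norm ?_).trans (le_of_eq (tsum_congr fun k => hterm s c y k))
      simp_rw [hterm]
      exact hsum s
    have h9 := integral_re h8
    have h10 : ∀ y : ℝ, RCLike.re ((bern r a (x - y) : ℂ) * Phi u r a s c y) =
        bern r a (x - y) * (Phi u r a s c y).re := fun y => by
      rw [RCLike.re_eq_complex_re, Complex.re_ofReal_mul]
    simp_rw [h10] at h9
    rw [h9, ← h7]
    simp
  · intro s t
    have h1 := square_fun (Q := 2 ^ s) (by positivity) (hM s) (hb s t)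
    have h2 : ∑ c ∈ range (2 ^ s), ((Phi u r a s c t).re) ^ 2 ≤
        ∑ c ∈ range (2 ^ s), ‖Phi u r a s c t‖ ^ 2 := by
      refine Finset.sum_le_sum fun c _ => ?_
      rw [← sq_abs]
      exact pow_le_pow_left₀ (abs_nonneg _) (Complex.abs_re_le_norm _) 2
    refine h2.trans (h1.trans ?_)
    have h3 : ((2 ^ s : ℕ) : ℝ) * (C * ((2 : ℝ) ^ s) ^ r / 2 ^ s * S0) =
        C * S0 * ((2 : ℝ) ^ s) ^ r := by
      have := hQ s
      push_cast
      field_simp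
    rw [h3, mul_pow, ← Real.rpow_natCast (((2 : ℝ) ^ s) ^ r) 2, ← Real.rpow_mul (hQ s).le]
    have h4 : r * ((2 : ℕ) : ℝ) = 2 * r := by push_cast; ring
    rw [h4]
    have h5 : (0 : ℝ) < ((2 : ℝ) ^ s) ^ (2 * r) := Real.rpow_pos_of_pos (hQ s) _
    nlinarith

end Pool.Agent.Helper25.SB
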